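import Pool.Agent.H98.EX.LTargets
import Pool.Agent.H37.SLN.W1D
import Pool.Agent.H75.EX.YSM

/-!
# Row BAX of the board exa_modules (helper51): the bad environments
-/

set_option autoImplicit false

open MeasureTheory ProbabilityTheory Filter Topology
open scoped ENNReal
open Pool.Agent.H95 Pool.Agent.H95.Cop
open Pool.Agent.H55.CG (VV Mo)
open Pool.Agent.H98.SLN (RG TS MM YY sd)
open Pool.Agent.H98.EX

namespace Pool.Agent.H51.EX

/-- union bound -/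
theorem two_sets {Ω : Type} [MeasurableSpace Ω] {μ : Measure Ω} {f : Ω → ℝ} (hf : Integrable f μ)
    (h0 : ∀ x, 0 ≤ f x) {A B : Set Ω} (hA : MeasurableSet A) (hB : MeasurableSet B) {a b : ℝ}
    (ha : ∫ x in A, f x ∂μ ≤ a) (hb : ∫ x in B, f x ∂μ ≤ b) :
    ∫ x in A ∪ B, f x ∂μ ≤ a + b := by
  rw [← Set.union_sdiff_self, setIntegral_union Set.disjoint_sdiff_right (hB.diff hA)
    hf.integrableOn hf.integrableOn]
  refine add_le_add ha (le_trans ?_ hb)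
  exact setIntegral_mono_set hf.integrableOn (Eventually.of_forall h0)
    (Eventually.of_forall fun x hx => hx.1)

/-- transfer to the random walk -/
theorem transfer {ν ρ : Measure ℝ} {k : ℕ} {ϑ : ℝ}
    (hmp : MeasurePreserving (yk k ϑ) (iid ν) (iid ρ)) {A : Set (ℕ → ℝ)} (hA : MeasurableSet A)
    {f : (ℕ → ℝ) → ℝ} (hf : Measurable f) :
    ∫ x in {x | yk k ϑ x ∈ A}, f (yk k ϑ x) ∂(iid ν) = ∫ y in A, f y ∂(iid ρ) := by
  rw [← hmp.map_eq, setIntegral_map hA hf.aestronglyMeasurable hmp.measurable.aemeasurable]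
  rfl

theorem meas_RT (F : Finset (ℕ × ℕ)) (a b : ℕ) : Measurable fun y : ℕ → ℝ => RT F y a b := by
  unfold RT
  refine Finset.measurable_sum _ fun p _ => Real.measurable_exp.comp ?_
  exact (Pool.Agent.H75.EX.meas_H _ _).sub (Pool.Agent.H75.EX.meas_H _ _)

theorem int_expH (ρ : Measure ℝ) [IsProbabilityMeasure ρ]
    (hint : ∀ t : ℝ, Integrable (fun z => Real.exp (t * z)) ρ) (γ : ℝ) {a b : ℕ} (hab : a ≤ b) :
    Integrable (fun y : ℕ → ℝ => Real.exp (γ * H y a (b + 1))) (iid ρ) := by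
  have h1 := Pool.Agent.H75.EX.int_H ρ hint (b + 1 - a) γ
  have h2 := (measurePreserving_shift ρ a).integrable_comp_of_integrable h1
  refine h2.congr (Eventually.of_forall fun y => ?_)
  show Real.exp (γ * H (shift a y) 0 (b + 1 - a)) = _
  rw [H_shift, zero_add, Nat.sub_add_cancel (by omega)]

/-- the geometric sums -/
theorem geo_bounds {ϑ : ℝ} (h0 : 0 < ϑ) (h1 : ϑ ≤ 1 / 2 ^ 12) :
    0 < Real.exp (-(ϑ / 64)) ∧ Real.exp (-(ϑ / 64)) < 1 ∧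
    1 / (1 - Real.exp (-(ϑ / 64))) ≤ 128 / ϑ := by
  have h2 : Real.exp (-(ϑ / 64)) ≤ 1 - ϑ / 128 := by
    have e1 : 1 + ϑ / 64 ≤ Real.exp (ϑ / 64) := by
      have := Real.add_one_le_exp (ϑ / 64)
      linarith
    have e2 : Real.exp (-(ϑ / 64)) ≤ 1 / (1 + ϑ / 64) := by
      rw [Real.exp_neg, ← one_div]
      exact one_div_le_one_div_of_le (by positivity) e1
    refine e2.trans ?_
    rw [div_le_iff₀ (by positivity)]
    have h3 : ϑ ≤ 1 := h1.trans (by norm_num)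
    nlinarith
  refine ⟨Real.exp_pos _, by linarith, ?_⟩
  rw [div_le_div_iff₀ (by linarith) h0]
  linarith

theorem pf_BAX (hSUR : Pool.Agent.H98.SLN.T_SUR) (hTLQ : Pool.Agent.H98.SLN.T_TLQ)
    (hUQB : Pool.Agent.H98.SLN.T_UQB) (hYSM : T_YSM) (hMGL : T_MGL) (hBDX : T_BDX)
    (hRTX : T_RTX) (hSRX : T_SRX) (hWNX : T_WNX) : T_BAX := by
  intro K ν α c δ r ϑ ε τ β ζ η k q n R D J h s s0 s1 j j3 jJ p hp
  obtain ⟨a, b⟩ := p
  have heg := h.lm.eg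
  have hprob := heg.prob
  have hk1 : 1 ≤ k := (hTLQ K α c δ k q h.rx.rg).1
  obtain ⟨hmp, hρ, hint, -, -⟩ := hYSM ν heg.exp k ϑ hk1
  have hϑ := h.ϑ0
  have hβ := h.β0
  have hζ := h.ζ0
  have hη := h.η0
  have hδ := h.rx.rg.δ0
  have hδ1 := h.rx.rg.δ1
  have hα0 := h.rx.rg.α0
  have hα1 := h.rx.rg.α1
  have hτ := h.τ0
  have hδ2 : δ ≤ 1 / 4 := hδ1.trans (by norm_num)
  have hαp : 0 < 1 + α := by linarith
  have γ1 : 1 / 2 ≤ 1 / (1 + α) := by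
    rw [div_le_div_iff₀ (by norm_num) hαp]; linarith
  have γ2 : 1 / (1 + α) ≤ 1 / 2 + δ / 2 := by
    rw [div_le_iff₀ hαp]
    nlinarith
  obtain ⟨γ, hγ⟩ : ∃ γ : ℝ, γ = 1 / (1 + α) := ⟨_, rfl⟩
  have hBD := hBDX K ν α c δ r ϑ ε τ β ζ η k q n R D J h
  simp only [← hγ] at hBD γ1 γ2 ⊢
  obtain ⟨-, -, -, hM⟩ := hMGL ν k ϑ ε τ heg hk1 hϑ h.ε0 γ δ hδ.le hδ2 γ1 γ2
  obtain ⟨hM1, hM2⟩ := hM h.ε1 h.τ1
  obtain ⟨r0, r1, r2⟩ := geo_bounds hϑ h.ϑ1
  -- the pair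
  unfold WS at hp
  rw [Finset.mem_filter, Finset.mem_product, Finset.mem_range, Finset.mem_range] at hp
  obtain ⟨⟨han, hbn⟩, hRa, hbR, hp1, hp2⟩ := hp
  simp only at han hbn hRa hbR hp1 hp2 ⊢
  have hj3 : (3 : ℝ) ≤ j := by exact_mod_cast j3
  have hjJ : (j : ℝ) ≤ J := by exact_mod_cast jJ
  have D1 : 12 * β / ϑ ≤ (b : ℝ) + 1 - a := by
    refine le_trans ?_ hp1
    apply div_le_div_of_nonneg_right _ hϑ.le
    nlinarith
  have D2 : (b : ℝ) + 1 - a ≤ D := by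
    refine hp2.trans (le_trans ?_ h.D1)
    apply div_le_div_of_nonneg_right _ hϑ.le
    nlinarith
  have hR2 : (2 : ℝ) ≤ R := by exact_mod_cast h.R2
  have hab : a + 1 ≤ b := by
    have h1 := h.Rβ
    have h2 : (a : ℝ) + 1 ≤ b := by linarith
    exact_mod_cast h2
  have hbD : b + 1 ≤ a + D := by
    have h2 : (b : ℝ) + 1 ≤ a + D := by linarith
    exact_mod_cast h2
  have hab' : a ≤ b := by omega
  have hDe : ((b + 1 - a : ℕ) : ℝ) = (b : ℝ) + 1 - a := by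
    rw [Nat.cast_sub (by omega)]
    push_cast
    ring
  -- the geometric sums
  have rD : Real.exp (-(ϑ / 64)) ^ (b + 1 - a) ≤ Real.exp (-(3 * β / 16)) := by
    rw [← Real.exp_nat_mul, hDe]
    refine Real.exp_le_exp.2 ?_
    have h1 : 12 * β ≤ ((b : ℝ) + 1 - a) * ϑ := (div_le_iff₀ hϑ).1 D1
    linarith
  have rR : Real.exp (-(ϑ / 64)) ^ (R + 1) ≤ Real.exp (-(ϑ * R / 64)) := by
    rw [← Real.exp_nat_mul]
    refine Real.exp_le_exp.2 ?_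
    push_cast
    linarith
  have g0 : 0 ≤ 1 / (1 - Real.exp (-(ϑ / 64))) := by
    have : 0 < 1 - Real.exp (-(ϑ / 64)) := by linarith
    positivity
  have gn : (n : ℝ) * (Real.exp (-(ϑ / 64)) ^ (b + 1 - a) / (1 - Real.exp (-(ϑ / 64)))) ≤
      128 * n / ϑ * Real.exp (-(3 * β / 16)) := by
    have e1 : (n : ℝ) * (Real.exp (-(ϑ / 64)) ^ (b + 1 - a) / (1 - Real.exp (-(ϑ / 64)))) =
        n * (Real.exp (-(ϑ / 64)) ^ (b + 1 - a) * (1 / (1 - Real.exp (-(ϑ / 64))))) := by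
      rw [mul_one_div]
    rw [e1]
    have e2 : Real.exp (-(ϑ / 64)) ^ (b + 1 - a) * (1 / (1 - Real.exp (-(ϑ / 64)))) ≤
        Real.exp (-(3 * β / 16)) * (128 / ϑ) := mul_le_mul rD r2 g0 (Real.exp_pos _).le
    refine (mul_le_mul_of_nonneg_left e2 (Nat.cast_nonneg n)).trans (le_of_eq ?_)
    ring
  have gs : (1 / (1 - Real.exp (-(ϑ / 64)))) ^ 2 ≤ 2 ^ 14 / ϑ ^ 2 := by
    refine (pow_le_pow_left₀ g0 r2 2).trans (le_of_eq ?_)
    rw [div_pow]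
    norm_num
  have G2 : 8 * Real.exp (-(ϑ / 64)) ^ (R + 1) / (1 - Real.exp (-(ϑ / 64))) ^ 2 +
      n * (Real.exp (-(ϑ / 64)) ^ (b + 1 - a) / (1 - Real.exp (-(ϑ / 64)))) ≤
      2 ^ 17 / ϑ ^ 2 * Real.exp (-(ϑ * R / 64)) + 128 * n / ϑ * Real.exp (-(3 * β / 16)) := by
    refine add_le_add ?_ gn
    have e1 : 8 * Real.exp (-(ϑ / 64)) ^ (R + 1) / (1 - Real.exp (-(ϑ / 64))) ^ 2 =
        8 * (Real.exp (-(ϑ / 64)) ^ (R + 1) * (1 / (1 - Real.exp (-(ϑ / 64)))) ^ 2) := by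
      rw [div_pow, one_pow]
      ring
    rw [e1]
    have e2 := mul_le_mul rR gs (sq_nonneg _) (Real.exp_pos _).le
    refine (mul_le_mul_of_nonneg_left e2 (by norm_num : (0 : ℝ) ≤ 8)).trans (le_of_eq ?_)
    ring
  have G3 : 4 / (1 - Real.exp (-(ϑ / 64))) ^ 2 +
      n * (Real.exp (-(ϑ / 64)) ^ (b + 1 - a) / (1 - Real.exp (-(ϑ / 64)))) ≤
      2 ^ 16 / ϑ ^ 2 + 128 * n / ϑ * Real.exp (-(3 * β / 16)) := by
    refine add_le_add ?_ gn
    have e1 : 4 / (1 - Real.exp (-(ϑ / 64))) ^ 2 = 4 * (1 / (1 - Real.exp (-(ϑ / 64)))) ^ 2 := by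
      rw [div_pow, one_pow]
      ring
    rw [e1]
    refine (mul_le_mul_of_nonneg_left gs (by norm_num : (0 : ℝ) ≤ 4)).trans (le_of_eq ?_)
    ring
  -- measurability and integrability
  have mH : Measurable fun y : ℕ → ℝ => Real.exp (γ * H y a (b + 1)) :=
    Real.measurable_exp.comp ((Pool.Agent.H75.EX.meas_H _ _).const_mul _)
  have mc : Measurable fun x : ℕ → ℝ => cX k ϑ x a b :=
    (Pool.Agent.H75.EX.meas_H a (b + 1)).comp hmp.measurable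
  have hf : Integrable (fun x : ℕ → ℝ => Real.exp (γ * cX k ϑ x a b)) (iid ν) :=
    hmp.integrable_comp_of_integrable (int_expH (rl ν k ϑ) hint γ hab')
  have hMo : 0 ≤ Mo (rl ν k ϑ) γ ^ (b + 1 - a) :=
    pow_nonneg (integral_nonneg fun z => (Real.exp_pos _).le) _
  have M2 : MeasurableSet {y : ℕ → ℝ | η < RT (QS n \ NS R a b) y a b} :=
    measurableSet_lt measurable_const (meas_RT _ _ _)
  have M3 : MeasurableSet {y : ℕ → ℝ | Real.exp (β * ζ / 4) < RT (QS n) y a b} :=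
    measurableSet_lt measurable_const (meas_RT _ _ _)
  have M4 : MeasurableSet {y : ℕ → ℝ | β * ζ / 4 <
      |H y a (b + 1) - ϑ / 4 * ((b : ℝ) + 1 - a)|} :=
    measurableSet_lt measurable_const (measurable_abs.comp
      ((Pool.Agent.H75.EX.meas_H _ _).sub_const _))
  have M1 : MeasurableSet {x : ℕ → ℝ | ¬ gX K k q ϑ x (a, b)} := by
    have : MeasurableSet {x : ℕ → ℝ | gX K k q ϑ x (a, b)} :=
      measurableSet_le (mc.sub_const _) (Pool.Agent.H37.SLN.W1D.meas_YY hUQB K k q a b)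
    exact this.compl
  -- the four parts
  have P1 := hBD a b hab hbD
  have P2 : ∫ x in {x | yk k ϑ x ∈ {y : ℕ → ℝ | η < RT (QS n \ NS R a b) y a b}},
      Real.exp (γ * cX k ϑ x a b) ∂(iid ν) ≤ Mo (rl ν k ϑ) γ ^ (b + 1 - a) *
      (η ^ (-(1 / 4) : ℝ) * (2 ^ 17 / ϑ ^ 2 * Real.exp (-(ϑ * R / 64)) +
        128 * n / ϑ * Real.exp (-(3 * β / 16)))) := by
    refine le_trans (le_of_eq (transfer hmp M2 mH)) ?_
    refine (hRTX (rl ν k ϑ) hint γ (Real.exp (-(ϑ / 64))) r0 r1.le hM1 hM2 (QS n \ NS R a b)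
      (fun p hp => ?_) a b hab' η hη).trans ?_
    · rw [Finset.mem_sdiff] at hp
      exact (Finset.mem_filter.1 hp.1).2
    · refine mul_le_mul_of_nonneg_left (mul_le_mul_of_nonneg_left ?_
        (Real.rpow_nonneg hη.le _)) hMo
      exact (hSRX _ n R a b r0 r1 hab' hbn).trans G2
  have P3 : ∫ x in {x | yk k ϑ x ∈ {y : ℕ → ℝ | Real.exp (β * ζ / 4) < RT (QS n) y a b}},
      Real.exp (γ * cX k ϑ x a b) ∂(iid ν) ≤ Mo (rl ν k ϑ) γ ^ (b + 1 - a) *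
      (Real.exp (-(β * ζ / 16)) * (2 ^ 16 / ϑ ^ 2 +
        128 * n / ϑ * Real.exp (-(3 * β / 16)))) := by
    refine le_trans (le_of_eq (transfer hmp M3 mH)) ?_
    refine (hRTX (rl ν k ϑ) hint γ (Real.exp (-(ϑ / 64))) r0 r1.le hM1 hM2 (QS n)
      (fun p hp => (Finset.mem_filter.1 hp).2) a b hab' _ (Real.exp_pos _)).trans ?_
    have e1 : Real.exp (β * ζ / 4) ^ (-(1 / 4) : ℝ) = Real.exp (-(β * ζ / 16)) := by
      rw [← Real.exp_mul]
      congr 1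
      ring
    rw [e1]
    refine mul_le_mul_of_nonneg_left (mul_le_mul_of_nonneg_left ?_ (Real.exp_pos _).le) hMo
    exact (hSUR _ n a b r0 r1 hab' hbn).trans G3
  have P4 : ∫ x in {x | yk k ϑ x ∈ {y : ℕ → ℝ | β * ζ / 4 <
      |H y a (b + 1) - ϑ / 4 * ((b : ℝ) + 1 - a)|}},
      Real.exp (γ * cX k ϑ x a b) ∂(iid ν) ≤ Mo (rl ν k ϑ) γ ^ (b + 1 - a) *
      (2 * Real.exp (-(s * (β * ζ / 4)) + D * (ϑ * (s * (ε + δ) + s ^ 2 / 2) + 2 * τ))) := by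
    refine le_trans (le_of_eq (transfer hmp M4 mH)) ?_
    refine (hWNX ν k ϑ ε τ heg hk1 hϑ h.ε0 hτ γ δ s (β * ζ / 4) γ1 (by linarith) (by linarith)
      s0 s1 (by positivity) a b hab').trans ?_
    refine mul_le_mul_of_nonneg_left (mul_le_mul_of_nonneg_left (Real.exp_le_exp.2 ?_)
      (by norm_num)) hMo
    have hε := h.ε0
    have e2 : 0 ≤ ϑ * (s * (ε + δ) + s ^ 2 / 2) + 2 * τ := by positivity
    exact add_le_add le_rfl (mul_le_mul_of_nonneg_right D2 e2)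
  have hU : {x : ℕ → ℝ | Bd K k q ϑ β ζ η n R x a b} =
      {x : ℕ → ℝ | ¬ gX K k q ϑ x (a, b)} ∪
      ({x | yk k ϑ x ∈ {y : ℕ → ℝ | η < RT (QS n \ NS R a b) y a b}} ∪
      ({x | yk k ϑ x ∈ {y : ℕ → ℝ | Real.exp (β * ζ / 4) < RT (QS n) y a b}} ∪
      {x | yk k ϑ x ∈ {y : ℕ → ℝ | β * ζ / 4 <
        |H y a (b + 1) - ϑ / 4 * ((b : ℝ) + 1 - a)|}})) := rfl
  have M2' : MeasurableSet {x | yk k ϑ x ∈ {y : ℕ → ℝ | η < RT (QS n \ NS R a b) y a b}} :=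
    hmp.measurable M2
  have M3' : MeasurableSet {x | yk k ϑ x ∈
      {y : ℕ → ℝ | Real.exp (β * ζ / 4) < RT (QS n) y a b}} := hmp.measurable M3
  have M4' : MeasurableSet {x | yk k ϑ x ∈ {y : ℕ → ℝ | β * ζ / 4 <
      |H y a (b + 1) - ϑ / 4 * ((b : ℝ) + 1 - a)|}} := hmp.measurable M4
  have f0 : ∀ x : ℕ → ℝ, 0 ≤ Real.exp (γ * cX k ϑ x a b) := fun x => (Real.exp_pos _).le
  rw [hU]
  refine (two_sets hf f0 M1 (M2'.union (M3'.union M4')) P1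
    (two_sets hf f0 M2' (M3'.union M4') P2 (two_sets hf f0 M3' M4' P3 P4))).trans (le_of_eq ?_)
  unfold Pb
  ring

end Pool.Agent.H51.EX
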