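import Pool.Agent.H98.EX.BTargets
import Pool.Agent.H19.EX.PBas
import Pool.Agent.H64.SLN.CMT
import Pool.Agent.H17.CRX.PFM

/-!
# Row PR0 of the board exa_modules (helper51)

The integrals of a pair of cells, without functions of the ends.
-/

set_option autoImplicit false

open MeasureTheory ProbabilityTheory Filter Topology
open scoped ENNReal
open Pool.Agent.H95 Pool.Agent.H95.Cop
open Pool.Agent.H55.CG (Mo)
open Pool.Agent.H99.CE (PF BX w0)
open Pool.Agent.H98.EX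
open Pool.Agent.H19.EX (meas_H meas_be dep_be meas_Sy dep_Sy wr_wc)

namespace Pool.Agent.H51.EX

theorem nc_meas (K : PMF ℕ) (k d : ℕ) : Measurable (NC (wc K k) be k d) ∧
    DepLt ((d + 1) * k) (NC (wc K k) be k d) := by
  have hP := (Pool.Agent.H17.CRX.pf_PFM.1 (wc K k) (wr_wc K k)).1
  constructor
  · unfold NC
    refine Finset.measurable_sum _ fun e _ => Finset.measurable_sum _ fun r _ => ?_
    split_ifs
    · exact ((meas_be 0 e).mul ((hP _).1.comp (measurable_shift e))).mul (meas_be _ _)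
    · exact measurable_const
  · intro x x' h
    unfold NC
    refine Finset.sum_congr rfl fun e he => Finset.sum_congr rfl fun r hr => ?_
    rw [Finset.mem_range] at he hr
    split_ifs with hc
    · have hk : (d + 1) * k = d * k + k := by ring
      have h1 : be x 0 e = be x' 0 e := dep_be 0 e x x' fun i hi => h i (by omega)
      have h2 : PF (wc K k) (d * k + r - e) (shift e x) =
          PF (wc K k) (d * k + r - e) (shift e x') :=
        (hP _).2.1 _ _ fun i hi => h (i + e) (by omega)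
      have h3 : be x (d * k + r) ((d + 1) * k) = be x' (d * k + r) ((d + 1) * k) :=
        dep_be _ _ x x' h
      rw [h1, h2, h3]
    · rfl

theorem pf_PR0 (hPCO : T_PCO) (hEGP : T_EGP) (hPE0 : T_PE0) (hPC1 : T_PC1) : T_PR0 := by
  intro K ν α c δ r ϑ ε τ ω s k q hb d
  have hprob := hb.eg.prob
  have hexp := hb.eg.exp
  have hα : 0 < 1 + α := by
    have h1 := hb.rx.rg.α0
    have h2 := hb.rx.rg.δ1
    have h3 : (1 : ℝ) / 2 ^ 20 ≤ 1 := by norm_num
    linarith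
  have ht1 := hb.t1
  have ht2 : te α s ≤ 5 / 8 := by
    refine le_trans ?_ hb.t2
    unfold te
    have := hb.s0
    gcongr
    linarith
  have hk : (0 : ℝ) < k := by
    have h1 := hb.kϑ
    have h2 := hb.ϑ0
    by_contra h3
    have h4 : (k : ℝ) ≤ 0 := not_lt.1 h3
    have h5 : ϑ * k ≤ 0 := mul_nonpos_of_nonneg_of_nonpos h2.le h4
    linarith
  have hk1 : 1 ≤ k := by exact_mod_cast hk
  have hε := hb.ε0
  have hτ := hb.τ0
  have hϑ := hb.ϑ0
  have hδ := hb.rx.rg.δ0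
  have hω := hb.ω0
  have had : 0 ≤ ad ϑ ω := by unfold ad; positivity
  have hEP := hEGP ν k ϑ ε τ 3 (te α s) hb.eg le_rfl
    (abs_le.2 ⟨by linarith, by linarith⟩) hτ
  have hPB : PB (ν.tilted fun t => te α s / 2 * t) k ϑ (te α s - 1 / 2 - ε) (2 * τ) ω :=
    ⟨hEP, hk1, hb.ϑ0, hb.ϑ1, hb.ω0, hb.ω1, hb.σω, hb.ϑω, by linarith, hb.τω⟩
  have hPA : PA K (ν.tilted fun t => te α s / 2 * t) α c δ r ϑ (te α s - 1 / 2 - ε) (2 * τ) ω k q :=
    ⟨hb.rx, hPB, hb.rϑ, hb.δϑ, hb.kϑ⟩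
  obtain ⟨e1, e2⟩ := hPE0 K _ α c δ r ϑ _ (2 * τ) ω k q hPA d
  have e3 := (hPC1 _ k ϑ _ (2 * τ) ω hPB).2 d
  obtain ⟨hpt, -, hcm⟩ := Pool.Agent.H64.SLN.pf_CMT ν hexp (te α s / 2)
  have hup := hb.eg.up (te α s / 2) (abs_le.2 ⟨by linarith, by linarith⟩)
  have hM : Mo ν (te α s / 2) ^ ((d + 1) * k) ≤ Real.exp (((d : ℝ) + 1) *
      (ϑ * (2 * (te α s / 2) ^ 2 - 2 * (te α s / 2) * (3 / 4 + ε)) + τ)) := by
    rw [mul_comm (d + 1) k, pow_mul]
    refine (pow_le_pow_left₀ (pow_nonneg (integral_nonneg fun z => (Real.exp_pos _).le) _)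
      hup (d + 1)).trans (le_of_eq ?_)
    rw [← Real.exp_nat_mul]
    push_cast
    rfl
  have hS : ∀ x : ℕ → ℝ, Sy k ϑ x 0 ((d + 1) * k) =
      H x 0 ((d + 1) * k) / 2 + ((d : ℝ) + 1) * ϑ / 2 := by
    intro x
    unfold Sy
    push_cast
    field_simp
    ring
  obtain ⟨mNC, dNC⟩ := nc_meas K k d
  have mS : Measurable fun x : ℕ → ℝ => ENNReal.ofReal (Sy k ϑ x 0 ((d + 1) * k)) :=
    (meas_Sy k ϑ 0 _).ennreal_ofReal
  have dS : DepLt ((d + 1) * k) fun x : ℕ → ℝ => ENNReal.ofReal (Sy k ϑ x 0 ((d + 1) * k)) :=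
    fun x x' h => by
      show ENNReal.ofReal _ = ENNReal.ofReal _
      rw [dep_Sy k ϑ 0 _ x x' h]
  have hVH : 0 ≤ VH K k ϑ := by
    unfold VH Pool.Agent.H98.SLN.TS
    have := Finset.sum_nonneg fun j (_ : j ∈ Finset.range k) => tailK_nonneg K (j + 1)
    positivity
  unfold kap
  generalize te α s = θ at *
  obtain ⟨L, hL⟩ : ∃ L : ℝ, L = (d : ℝ) + 1 := ⟨_, rfl⟩
  have hL0 : 0 ≤ L := by rw [hL]; positivity
  rw [← hL] at hM e2 e3 ⊢
  simp only [← hL] at hS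
  have key2 : ∀ G : (ℕ → ℝ) → ℝ≥0∞, Measurable G → DepLt ((d + 1) * k) G →
      ∫⁻ x, G x * ENNReal.ofReal (Real.exp (θ * Sy k ϑ x 0 ((d + 1) * k))) ∂(iid ν) =
      ENNReal.ofReal (Real.exp (θ * L * ϑ / 2)) * (ENNReal.ofReal (Mo ν (θ / 2) ^ ((d + 1) * k)) *
        ∫⁻ x, G x ∂(iid (ν.tilted fun z => θ / 2 * z))) := by
    intro G mG dG
    rw [← hcm _ G mG dG, ← lintegral_const_mul]
    · refine lintegral_congr fun x => ?_
      rw [hS, ← mul_assoc, ← ENNReal.ofReal_mul (Real.exp_pos _).le, ← Real.exp_add, mul_comm]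
      congr 3
      ring
    · exact ((Real.measurable_exp.comp ((meas_H 0 _).const_mul _)).ennreal_ofReal).mul mG
  have key1 : ∀ G : (ℕ → ℝ) → ℝ≥0∞, Measurable G → DepLt ((d + 1) * k) G →
      ∫⁻ x, G x * (ENNReal.ofReal (Real.exp ((θ - 1) * Sy k ϑ x 0 ((d + 1) * k))) *
        BX (w0 K k k) k d x) ∂(iid ν) =
      ENNReal.ofReal (Real.exp ((θ - 1) * L * ϑ / 2)) *
        (ENNReal.ofReal (Mo ν (θ / 2) ^ ((d + 1) * k)) *
        ∫⁻ x, G x * NC (wc K k) be k d x ∂(iid (ν.tilted fun z => θ / 2 * z))) := by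
    intro G mG dG
    rw [← hcm _ (fun x => G x * NC (wc K k) be k d x) (mG.mul mNC) (fun x x' h => by
      show G x * _ = G x' * _
      rw [dG x x' h, dNC x x' h]), ← lintegral_const_mul]
    · refine lintegral_congr fun x => ?_
      rw [(hPCO K k).2 d x, hS]
      have h1 : ENNReal.ofReal (Real.exp ((θ - 1) * (H x 0 ((d + 1) * k) / 2 + L * ϑ / 2))) *
          ENNReal.ofReal (Real.exp (H x 0 ((d + 1) * k) / 2)) =
          ENNReal.ofReal (Real.exp ((θ - 1) * L * ϑ / 2)) *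
          ENNReal.ofReal (Real.exp (θ / 2 * H x 0 ((d + 1) * k))) := by
        rw [← ENNReal.ofReal_mul (Real.exp_pos _).le, ← ENNReal.ofReal_mul (Real.exp_pos _).le,
          ← Real.exp_add, ← Real.exp_add]
        congr 2
        ring
      calc G x * (ENNReal.ofReal (Real.exp ((θ - 1) * (H x 0 ((d + 1) * k) / 2 + L * ϑ / 2))) *
          (ENNReal.ofReal (Real.exp (H x 0 ((d + 1) * k) / 2)) * NC (wc K k) be k d x))
          = G x * ((ENNReal.ofReal (Real.exp ((θ - 1) * (H x 0 ((d + 1) * k) / 2 + L * ϑ / 2))) *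
          ENNReal.ofReal (Real.exp (H x 0 ((d + 1) * k) / 2))) * NC (wc K k) be k d x) := by ring
        _ = _ := by rw [h1]; ring
    · exact ((Real.measurable_exp.comp ((meas_H 0 _).const_mul _)).ennreal_ofReal).mul
        (mG.mul mNC)
  have hMD : Real.exp ((θ - 1) * L * ϑ / 2) * (Real.exp (L *
      (ϑ * (2 * (θ / 2) ^ 2 - 2 * (θ / 2) * (3 / 4 + ε)) + τ)) * MD K k ϑ (2 * τ) δ d) =
      VH K k ϑ * Real.exp (-((ϑ * θ * (1 / 4 + ε - θ / 2) - 3 * τ - 64 * δ) * L)) := by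
    unfold MD
    rw [← hL, ← mul_assoc, ← mul_assoc, ← Real.exp_add, ← Real.exp_add, mul_comm]
    congr 2
    ring
  have hMC : Real.exp (θ * L * ϑ / 2) * Real.exp (L *
      (ϑ * (2 * (θ / 2) ^ 2 - 2 * (θ / 2) * (3 / 4 + ε)) + τ)) ≤
      Real.exp (-((ϑ * θ * (1 / 4 + ε - θ / 2) - 3 * τ - 64 * δ) * L)) := by
    rw [← Real.exp_add]
    refine Real.exp_le_exp.2 ?_
    have h1 : 0 ≤ L * τ := mul_nonneg hL0 hτ
    have h2 : 0 ≤ L * δ := mul_nonneg hL0 hδ.le
    nlinarith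
  have hMD0 : 0 ≤ MD K k ϑ (2 * τ) δ d := mul_nonneg (Real.exp_pos _).le hVH
  refine ⟨?_, ?_, ?_, ?_⟩
  · have h := key1 (fun _ => 1) measurable_const fun _ _ _ => rfl
    simp only [one_mul] at h
    rw [h, ← hMD, ENNReal.ofReal_mul (Real.exp_pos _).le, ENNReal.ofReal_mul (Real.exp_pos _).le]
    gcongr
  · rw [key1 _ mS dS, ← hMD, mul_assoc (Real.exp _) (Real.exp _ * _), mul_assoc (Real.exp _) (MD _ _ _ _ _ _),
      ENNReal.ofReal_mul (Real.exp_pos _).le, ENNReal.ofReal_mul (Real.exp_pos _).le]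
    gcongr
  · have h := key2 (fun _ => 1) measurable_const fun _ _ _ => rfl
    simp only [one_mul, lintegral_const, measure_univ, mul_one] at h
    rw [h]
    refine le_trans ?_ (ENNReal.ofReal_le_ofReal hMC)
    rw [ENNReal.ofReal_mul (Real.exp_pos _).le]
    gcongr
  · rw [key2 _ mS dS]
    have h0 : 0 ≤ ad ϑ ω * L + 4 := by positivity
    refine le_trans ?_ (ENNReal.ofReal_le_ofReal (mul_le_mul_of_nonneg_right hMC h0))
    rw [mul_assoc (Real.exp _) (Real.exp _), ENNReal.ofReal_mul (Real.exp_pos _).le,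
      ENNReal.ofReal_mul (Real.exp_pos _).le]
    gcongr

end Pool.Agent.H51.EX
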